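import Mathlib
import Pool.Agent.H262.FK5

set_option autoImplicit false

/-!
`F_p([0,1])` has the Schur `p`-property for `0 < p < 1`.
-/

namespace Pool.Agent.Results.MP_a71740_an.SchurUnitInterval

open Pool.Agent.H262.FreeP

/-- The Lipschitz free `p`-space over `[0,1]` in the sense of `IsFreePSpace` exists, so that
`result` below is not vacuous. -/
theorem exists_space (p : ℝ) (hp : 0 < p) (hp1 : p < 1) (o : Set.Icc (0 : ℝ) 1) :
    ∃ (F : Type) (_ : AddCommGroup F) (_ : Module ℝ F) (N : F → ℝ) (δ : Set.Icc (0 : ℝ) 1 → F),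
      IsFreePSpace ℝ p (Set.Icc (0 : ℝ) 1) o F N δ :=
  Pool.Agent.H262.FP.exists_free hp hp1.le o

/-- Let `0 < p < 1`. The Lipschitz free `p`-space `F_p([0,1])` over the unit interval with its usual
metric has the Schur `p`-property. -/
theorem result (p : ℝ) (hp : 0 < p) (hp1 : p < 1) (o : Set.Icc (0 : ℝ) 1)
    (F : Type) [AddCommGroup F] [Module ℝ F] (N : F → ℝ) (δ : Set.Icc (0 : ℝ) 1 → F)
    (hF : IsFreePSpace ℝ p (Set.Icc (0 : ℝ) 1) o F N δ) : SchurP ℝ p F N :=
  Pool.Agent.H262.FP.schur hp hp1 hF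

end Pool.Agent.Results.MP_a71740_an.SchurUnitInterval
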